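import Mathlib

set_option autoImplicit false

open scoped Pointwise
open MeasureTheory Filter Topology

namespace Pool.Agent.Results.MP_827700_an.UpperContinuity

/-- The trajectory `T_n(φ, C) = C + φ C + ... + φ^{n-1} C`. -/
def traj {G : Type*} [AddCommGroup G] (φ : G → G) (C : Set G) (n : ℕ) : Set G :=
  ∑ i ∈ Finset.range n, (φ^[i]) '' C

/-- `H_A(φ, C) = limsup (1/n) log μ(T_n(φ, C))`. -/
noncomputable def HA {G : Type*} [AddCommGroup G] [MeasurableSpace G]
    (μ : Measure G) (φ : G → G) (C : Set G) : EReal :=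
  limsup (fun n : ℕ => (((n : ℝ)⁻¹ : ℝ) : EReal) * ENNReal.log (μ (traj φ C n))) atTop

/-- The algebraic entropy `h_A(φ)`, computed with the measure `μ`: the supremum of
`H_A(φ, C)` over all compact neighbourhoods `C` of `0`. -/
noncomputable def hA {G : Type*} [AddCommGroup G] [TopologicalSpace G] [MeasurableSpace G]
    (μ : Measure G) (φ : G → G) : EReal :=
  ⨆ (C : Set G) (_ : IsCompact C ∧ C ∈ 𝓝 (0 : G)), HA μ φ C

/-- The restriction of `φ` to a `φ`-invariant subgroup `K`, as a self-map of `K`. -/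
def restr {G : Type*} [AddCommGroup G] (φ : G →+ G) (K : AddSubgroup G)
    (h : ∀ x ∈ K, φ x ∈ K) : K → K :=
  fun x => ⟨φ x, h x x.2⟩

section basic

variable {G : Type*} [AddCommGroup G]

lemma traj_zero (φ : G → G) (C : Set G) : traj φ C 0 = 0 := by
  simp [traj]

lemma traj_succ (φ : G →+ G) (C : Set G) (n : ℕ) :
    traj φ C (n + 1) = C + φ '' (traj φ C n) := by
  unfold traj
  rw [Finset.sum_range_succ', Set.image_finsetSum, add_comm]
  congr 1
  · simp
  · refine Finset.sum_congr rfl fun i _ => ?_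
    rw [Function.iterate_succ', Set.image_comp]

lemma traj_mono_set (φ : G → G) {C D : Set G} (h : C ⊆ D) (n : ℕ) :
    traj φ C n ⊆ traj φ D n := by
  unfold traj
  exact Set.finsetSum_subset_finsetSum _ _ _ fun i _ => Set.image_mono h

lemma traj_subset_succ (φ : G →+ G) {C : Set G} (h0 : (0 : G) ∈ C) (n : ℕ) :
    traj φ C n ⊆ traj φ C (n + 1) := by
  unfold traj
  rw [Finset.sum_range_succ]
  intro x hx
  refine ⟨x, hx, 0, ⟨0, h0, ?_⟩, by simp⟩
  have : ∀ k : ℕ, (φ^[k]) (0 : G) = 0 := by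
    intro k
    induction k with
    | zero => rfl
    | succ k ih => rw [Function.iterate_succ_apply', ih, map_zero]
  exact this n

lemma traj_cover (φ : G →+ G) {C E : Set G} (h : C + φ '' C ⊆ E + C) (n : ℕ) :
    traj φ C (n + 1) ⊆ traj φ E n + C := by
  induction n with
  | zero =>
    rw [traj_succ, traj_zero, traj_zero]
    simp
  | succ n ih =>
    calc traj φ C (n + 1 + 1) = C + φ '' (traj φ C (n + 1)) := traj_succ φ C (n + 1)
      _ ⊆ C + φ '' (traj φ E n + C) := Set.add_subset_add_left (Set.image_mono ih)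
      _ = (C + φ '' C) + φ '' (traj φ E n) := by
          rw [Set.image_add, add_comm (φ '' traj φ E n), ← add_assoc]
      _ ⊆ (E + C) + φ '' (traj φ E n) := Set.add_subset_add_right h
      _ = traj φ E (n + 1) + C := by
          rw [traj_succ, add_right_comm]

end basic

section top

variable {G : Type*} [AddCommGroup G] [TopologicalSpace G] [IsTopologicalAddGroup G]

lemma isCompact_traj (φ : G →+ G) (hφ : Continuous φ) {C : Set G} (hC : IsCompact C) (n : ℕ) :
    IsCompact (traj φ C n) := by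
  induction n with
  | zero => rw [traj_zero]; exact isCompact_singleton
  | succ n ih =>
    rw [traj_succ]
    exact hC.add (ih.image hφ)

omit [TopologicalSpace G] [IsTopologicalAddGroup G] in
lemma finite_traj (φ : G →+ G) {C : Set G} (hC : C.Finite) (n : ℕ) :
    (traj φ C n).Finite := by
  induction n with
  | zero => rw [traj_zero]; exact Set.finite_singleton _
  | succ n ih =>
    rw [traj_succ]
    exact hC.add (ih.image _)

end top

section packing

variable {G : Type*} [AddCommGroup G] [TopologicalSpace G] [IsTopologicalAddGroup G]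
  [T2Space G] [MeasurableSpace G] [BorelSpace G]

/-- Packing versus covering by translates of a compact neighbourhood. -/
lemma packing (μ : Measure G) [μ.IsAddHaarMeasure] {E U : Set G} (hE : IsCompact E)
    (hU : IsCompact U) (hU0 : U ∈ 𝓝 (0 : G)) :
    ∃ S : Finset G, (S : Set G) ⊆ E ∧ E ⊆ (S : Set G) + (U - U) ∧
      (S.card : ENNReal) * μ U ≤ μ (E + U) := by
  classical
  have hUm : MeasurableSet U := hU.isClosed.measurableSet
  have hUpos : 0 < μ U := (Measure.measure_pos_of_mem_nhds μ hU0)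
  have hUfin : μ U < ⊤ := hU.measure_lt_top
  have hEUfin : μ (E + U) < ⊤ := (hE.add hU).measure_lt_top
  let good : Finset G → Prop := fun S =>
    (S : Set G) ⊆ E ∧ (S : Set G).PairwiseDisjoint (fun s => s +ᵥ U)
  have hgood : ∀ S, good S → (S.card : ENNReal) * μ U ≤ μ (E + U) := by
    intro S hS
    have h1 : μ (⋃ s ∈ S, s +ᵥ U) = ∑ s ∈ S, μ (s +ᵥ U) := by
      refine measure_biUnion_finset hS.2 fun s _ => ?_
      exact hUm.const_vadd s
    have h2 : ∑ s ∈ S, μ (s +ᵥ U) = (S.card : ENNReal) * μ U := by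
      simp [measure_vadd]
    rw [← h2, ← h1]
    refine measure_mono ?_
    intro x hx
    simp only [Set.mem_iUnion] at hx
    obtain ⟨s, hs, u, hu, rfl⟩ := hx
    exact ⟨s, hS.1 hs, u, hu, rfl⟩
  have hbdd : BddAbove {n : ℕ | ∃ S, good S ∧ S.card = n} := by
    have hfin : μ (E + U) / μ U ≠ ⊤ :=
      (ENNReal.div_lt_top hEUfin.ne hUpos.ne').ne
    obtain ⟨N, hN⟩ := ENNReal.exists_nat_gt hfin
    refine ⟨N, ?_⟩
    rintro n ⟨S, hS, rfl⟩
    have h := hgood S hS
    have h' : (S.card : ENNReal) ≤ μ (E + U) / μ U := by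
      rw [ENNReal.le_div_iff_mul_le (Or.inl hUpos.ne') (Or.inl hUfin.ne)]
      exact h
    have h'' : (S.card : ENNReal) < N := lt_of_le_of_lt h' hN
    exact_mod_cast h''.le
  have hne : {n : ℕ | ∃ S, good S ∧ S.card = n}.Nonempty :=
    ⟨0, ∅, ⟨by simp, by simp⟩, by simp⟩
  obtain ⟨S, hS, hcard⟩ := Nat.sSup_mem hne hbdd
  refine ⟨S, hS.1, ?_, hgood S hS⟩
  intro e he
  by_contra hcon
  have hdisj : ∀ s ∈ S, Disjoint (e +ᵥ U) (s +ᵥ U) := by
    intro s hs
    rw [Set.disjoint_left]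
    rintro x ⟨u, hu, hux⟩ ⟨u', hu', hux'⟩
    apply hcon
    refine ⟨s, hs, u' - u, ⟨u', hu', u, hu, rfl⟩, ?_⟩
    simp only [vadd_eq_add] at hux hux'
    show s + (u' - u) = e
    have : e + u = s + u' := hux.trans hux'.symm
    rw [← add_sub_assoc, ← this, add_sub_cancel_right]
  have hnotin : e ∉ S := by
    intro heS
    have := hdisj e heS
    rw [disjoint_self] at this
    have h0 : (0 : G) ∈ U := mem_of_mem_nhds hU0
    have : e + 0 ∈ (⊥ : Set G) := by
      rw [← this]; exact ⟨0, h0, rfl⟩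
    simp at this
  have hgood' : good (insert e S) := by
    refine ⟨?_, ?_⟩
    · intro x hx
      rcases Finset.mem_insert.mp (by simpa using hx) with rfl | hx
      · exact he
      · exact hS.1 hx
    · rw [Finset.coe_insert, Set.pairwiseDisjoint_insert]
      exact ⟨hS.2, fun s hs _ => hdisj s hs⟩
  have hle : (insert e S).card ≤ sSup {n : ℕ | ∃ S, good S ∧ S.card = n} :=
    le_csSup hbdd ⟨insert e S, hgood', rfl⟩
  rw [← hcard, Finset.card_insert_of_notMem hnotin] at hle
  omega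

end packing

section limsup

lemma limsup_log_le {x y : ℕ → ENNReal} {c : ENNReal} (hc : c ≠ ⊤)
    (h : ∀ n, 1 ≤ n → x n ≤ c * y n) :
    limsup (fun n : ℕ => (((n : ℝ)⁻¹ : ℝ) : EReal) * ENNReal.log (x n)) atTop
      ≤ limsup (fun n : ℕ => (((n : ℝ)⁻¹ : ℝ) : EReal) * ENNReal.log (y n)) atTop := by
  obtain ⟨r, hr1, hcr⟩ : ∃ r : ℝ, 1 ≤ r ∧ c ≤ ENNReal.ofReal r := by
    refine ⟨max 1 c.toReal, le_max_left _ _, ?_⟩
    rw [← ENNReal.ofReal_toReal hc]
    exact ENNReal.ofReal_le_ofReal (by rw [ENNReal.ofReal_toReal hc]; exact le_max_right _ _)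
  have hlog : ENNReal.log (ENNReal.ofReal r) = ((Real.log r : ℝ) : EReal) :=
    ENNReal.log_ofReal_of_pos (by linarith)
  have h1 : ∀ᶠ n : ℕ in atTop, (((n : ℝ)⁻¹ : ℝ) : EReal) * ENNReal.log (x n) ≤
      (fun n : ℕ => (((n : ℝ)⁻¹ * Real.log r : ℝ) : EReal)) n +
        (fun n : ℕ => (((n : ℝ)⁻¹ : ℝ) : EReal) * ENNReal.log (y n)) n := by
    filter_upwards [eventually_ge_atTop 1] with n hn
    have h2 : ENNReal.log (x n) ≤ ((Real.log r : ℝ) : EReal) + ENNReal.log (y n) := by
      rw [← hlog, ← ENNReal.log_mul_add]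
      exact ENNReal.log_le_log ((h n hn).trans (mul_le_mul_left hcr _))
    have h3 : (0 : EReal) ≤ (((n : ℝ)⁻¹ : ℝ) : EReal) := by
      exact_mod_cast inv_nonneg.mpr (Nat.cast_nonneg n)
    calc (((n : ℝ)⁻¹ : ℝ) : EReal) * ENNReal.log (x n)
        ≤ (((n : ℝ)⁻¹ : ℝ) : EReal) * (((Real.log r : ℝ) : EReal) + ENNReal.log (y n)) :=
          mul_le_mul_of_nonneg_left h2 h3
      _ = _ := by
          rw [EReal.left_distrib_of_nonneg_of_ne_top h3 (EReal.coe_ne_top _)]
          simp only [EReal.coe_mul]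
  have hlim : limsup (fun n : ℕ => (((n : ℝ)⁻¹ * Real.log r : ℝ) : EReal)) atTop = 0 := by
    apply Tendsto.limsup_eq
    have : Tendsto (fun n : ℕ => (n : ℝ)⁻¹ * Real.log r) atTop (𝓝 (0 * Real.log r)) :=
      (tendsto_inv_atTop_nhds_zero_nat).mul_const _
    rw [zero_mul] at this
    exact_mod_cast (continuous_coe_real_ereal.tendsto 0).comp this
  calc _ ≤ limsup ((fun n : ℕ => (((n : ℝ)⁻¹ * Real.log r : ℝ) : EReal)) +
        (fun n : ℕ => (((n : ℝ)⁻¹ : ℝ) : EReal) * ENNReal.log (y n))) atTop :=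
        limsup_le_limsup h1
    _ ≤ limsup (fun n : ℕ => (((n : ℝ)⁻¹ * Real.log r : ℝ) : EReal)) atTop +
        limsup (fun n : ℕ => (((n : ℝ)⁻¹ : ℝ) : EReal) * ENNReal.log (y n)) atTop := by
        apply EReal.limsup_add_le
        · left; rw [hlim]; exact EReal.zero_ne_bot
        · left; rw [hlim]; exact EReal.zero_ne_top
    _ = _ := by rw [hlim, zero_add]

end limsup

section subgroup

variable {G : Type*} [AddCommGroup G]

/-- `restr` as a homomorphism. -/
def restrHom (φ : G →+ G) (K : AddSubgroup G) (h : ∀ x ∈ K, φ x ∈ K) : K →+ K where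
  toFun x := ⟨φ x, h x x.2⟩
  map_zero' := by ext; simp
  map_add' x y := by ext; simp

lemma coe_restrHom (φ : G →+ G) (K : AddSubgroup G) (h : ∀ x ∈ K, φ x ∈ K) :
    (⇑(restrHom φ K h)) = restr φ K h := rfl

lemma image_traj (φ : G →+ G) (K : AddSubgroup G) (h : ∀ x ∈ K, φ x ∈ K) (C : Set K)
    (n : ℕ) : K.subtype '' (traj (restr φ K h) C n) = traj φ (K.subtype '' C) n := by
  rw [← coe_restrHom]
  induction n with
  | zero => rw [traj_zero, traj_zero, Set.image_zero, map_zero]; rfl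
  | succ n ih =>
    rw [traj_succ, traj_succ, Set.image_add, ← ih]
    congr 1
    rw [← Set.image_comp, ← Set.image_comp]
    rfl

lemma traj_add_subset (φ : G →+ G) {A W : Set G} (hW : (0 : G) ∈ W) (n : ℕ) :
    traj φ A (n + 1) + W ⊆ traj φ (A + W) (n + 1) := by
  rw [traj_succ, traj_succ, add_right_comm]
  refine Set.add_subset_add_left (Set.image_mono (traj_mono_set φ ?_ n))
  intro a ha
  exact ⟨a, ha, 0, hW, by simp⟩

end subgroup

section main

variable {G : Type*} [AddCommGroup G] [TopologicalSpace G] [IsTopologicalAddGroup G]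
  [LocallyCompactSpace G] [T2Space G] [MeasurableSpace G] [BorelSpace G]

omit [IsTopologicalAddGroup G] [LocallyCompactSpace G] [T2Space G] [MeasurableSpace G]
  [BorelSpace G] in
lemma continuous_restr (φ : G →+ G) (hφ : Continuous φ) (K : AddSubgroup G)
    (h : ∀ x ∈ K, φ x ∈ K) : Continuous (restr φ K h) :=
  (hφ.comp continuous_subtype_val).subtype_mk _

/-- Monotonicity of the algebraic entropy for closed invariant subgroups. -/
lemma hA_closed_subgroup_le (μ : Measure G) [μ.IsAddHaarMeasure] (φ : G →+ G)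
    (hφ : Continuous φ) (K : AddSubgroup G) (hK : IsClosed (K : Set G))
    (h : ∀ x ∈ K, φ x ∈ K) (ν : Measure K) [ν.IsAddHaarMeasure] :
    hA ν (restr φ K h) ≤ hA μ φ := by
  classical
  have hemb : IsClosedEmbedding (K.subtype : K → G) := hK.isClosedEmbedding_subtypeVal
  unfold hA
  refine iSup₂_le ?_
  rintro C ⟨hC, hC0⟩
  obtain ⟨W, hWc, hW0⟩ := exists_compact_mem_nhds (0 : G)
  have h0W : (0 : G) ∈ W := mem_of_mem_nhds hW0
  have h0C : (0 : K) ∈ C := mem_of_mem_nhds hC0
  have hCc : IsCompact (K.subtype '' C) := hC.image hemb.continuous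
  let C' : Set G := K.subtype '' C + W
  have hC'c : IsCompact C' := hCc.add hWc
  have hC'0 : C' ∈ 𝓝 (0 : G) := by
    refine mem_of_superset hW0 ?_
    intro w hw
    exact ⟨0, ⟨0, h0C, map_zero _⟩, w, hw, by simp⟩
  refine le_trans ?_ (le_iSup₂ (f := fun (C : Set G) (_ : IsCompact C ∧ C ∈ 𝓝 (0 : G)) =>
    HA μ φ C) C' ⟨hC'c, hC'0⟩)
  unfold HA
  have hWpos : μ W ≠ 0 := (Measure.measure_pos_of_mem_nhds μ hW0).ne'
  have hWfin : μ W ≠ ⊤ := hWc.measure_lt_top.ne
  let D : Set K := K.subtype ⁻¹' (W - W)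
  have hWW : IsCompact (W - W) := by rw [sub_eq_add_neg]; exact hWc.add hWc.neg
  have hDc : IsCompact D := hemb.isCompact_preimage hWW
  have hDfin : ν D ≠ ⊤ := hDc.measure_lt_top.ne
  refine limsup_log_le (c := ν D / μ W) (ENNReal.div_ne_top hDfin hWpos) ?_
  intro n hn
  obtain ⟨m, rfl⟩ : ∃ m, n = m + 1 := ⟨n - 1, by omega⟩
  have hT : IsCompact (traj (restr φ K h) C (m + 1)) := by
    rw [← coe_restrHom]
    exact isCompact_traj (restrHom φ K h) (continuous_restr φ hφ K h) hC _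
  obtain ⟨S, hSE, hES, hcard⟩ := packing μ (hT.image hemb.continuous) hWc hW0
  have hsub : K.subtype '' (traj (restr φ K h) C (m + 1)) + W ⊆ traj φ C' (m + 1) := by
    rw [image_traj]
    exact traj_add_subset φ h0W m
  have h1 : traj (restr φ K h) C (m + 1) ⊆ ⋃ s ∈ S, K.subtype ⁻¹' (s +ᵥ (W - W)) := by
    intro x hx
    obtain ⟨s, hs, d, hd, hsd⟩ := hES ⟨x, hx, rfl⟩
    simp only [Set.mem_iUnion]
    exact ⟨s, hs, d, hd, hsd⟩
  have h2 : ∀ s ∈ S, ν (K.subtype ⁻¹' (s +ᵥ (W - W))) = ν D := by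
    intro s hs
    obtain ⟨s', _, rfl⟩ := hSE hs
    have : K.subtype ⁻¹' ((K.subtype s') +ᵥ (W - W)) = s' +ᵥ D := by
      ext x
      constructor
      · rintro ⟨d, hd, hx⟩
        refine ⟨x - s', ?_, by simp⟩
        show K.subtype (x - s') ∈ W - W
        rw [map_sub, ← hx]
        simpa using hd
      · rintro ⟨d, hd, rfl⟩
        exact ⟨K.subtype d, hd, by simp⟩
    rw [this, measure_vadd]
  have h3 : ν (traj (restr φ K h) C (m + 1)) ≤ (S.card : ENNReal) * ν D := by
    calc ν (traj (restr φ K h) C (m + 1))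
        ≤ ν (⋃ s ∈ S, K.subtype ⁻¹' (s +ᵥ (W - W))) := measure_mono h1
      _ ≤ ∑ s ∈ S, ν (K.subtype ⁻¹' (s +ᵥ (W - W))) := measure_biUnion_finset_le _ _
      _ = (S.card : ENNReal) * ν D := by
          rw [Finset.sum_congr rfl h2]; simp
  calc ν (traj (restr φ K h) C (m + 1)) ≤ (S.card : ENNReal) * ν D := h3
    _ = (ν D / μ W) * ((S.card : ENNReal) * μ W) := by
        rw [ENNReal.div_eq_inv_mul, mul_comm (S.card : ENNReal) (μ W), ← mul_assoc,
          mul_assoc _ (ν D), mul_comm (ν D), ← mul_assoc, ENNReal.inv_mul_cancel hWpos hWfin,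
          one_mul, mul_comm]
    _ ≤ (ν D / μ W) * μ (K.subtype '' (traj (restr φ K h) C (m + 1)) + W) :=
        mul_le_mul_right hcard _
    _ ≤ (ν D / μ W) * μ (traj φ C' (m + 1)) :=
        mul_le_mul_right (measure_mono hsub) _

omit [LocallyCompactSpace G] in
/-- The essential step: `H_A(φ, C)` is dominated by the entropy of one member of the system. -/
lemma HA_le_of_directed {I : Type*} (μ : Measure G) [μ.IsAddHaarMeasure] (φ : G →+ G)
    (hφ : Continuous φ) (K : I → AddSubgroup G) (hK : ∀ i, IsClosed (K i : Set G))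
    (h : ∀ i, ∀ x ∈ K i, φ x ∈ K i) (hdir : Directed (· ≤ ·) K)
    (hun : (⋃ i, (K i : Set G)) = Set.univ)
    (ν : ∀ i, Measure (K i)) [∀ i, (ν i).IsAddHaarMeasure]
    (C : Set G) (hC : IsCompact C) (hC0 : C ∈ 𝓝 (0 : G)) :
    ∃ i, HA μ φ C ≤ hA (ν i) (restr φ (K i) (h i)) := by
  classical
  have h0C : (0 : G) ∈ C := mem_of_mem_nhds hC0
  -- a finite set `E` with `C + φ C ⊆ E + C`
  obtain ⟨E, hE⟩ : ∃ E : Finset G, C + φ '' C ⊆ (E : Set G) + C := by
    have hcomp : IsCompact (C + φ '' C) := hC.add (hC.image hφ)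
    have hcov : C + φ '' C ⊆ ⋃ x : G, (x +ᵥ interior C) := by
      intro y _
      simp only [Set.mem_iUnion]
      exact ⟨y, 0, mem_interior_iff_mem_nhds.mpr hC0, by simp⟩
    obtain ⟨E, hE⟩ := hcomp.elim_finite_subcover (fun x : G => x +ᵥ interior C)
      (fun x => isOpen_interior.vadd x) hcov
    refine ⟨E, fun y hy => ?_⟩
    obtain ⟨x, hx, c, hc, hxc⟩ := by simpa only [Set.mem_iUnion, exists_prop] using hE hy
    exact ⟨x, hx, c, interior_subset hc, hxc⟩
  -- one member of the system contains `E`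
  have hne : Nonempty I := by
    have : (0 : G) ∈ (⋃ i, (K i : Set G)) := by rw [hun]; trivial
    simp only [Set.mem_iUnion] at this
    obtain ⟨i, _⟩ := this
    exact ⟨i⟩
  obtain ⟨i, hi⟩ : ∃ i, (E : Set G) ⊆ K i := by
    have key : ∀ F : Finset G, ∃ i, (F : Set G) ⊆ K i := by
      intro F
      induction F using Finset.induction_on with
      | empty => exact ⟨hne.some, by simp⟩
      | insert a s _ ih =>
        obtain ⟨i, hi⟩ := ih
        have : a ∈ (⋃ i, (K i : Set G)) := by rw [hun]; trivial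
        simp only [Set.mem_iUnion] at this
        obtain ⟨j, hj⟩ := this
        obtain ⟨k, hik, hjk⟩ := hdir i j
        refine ⟨k, ?_⟩
        intro x hx
        rw [Finset.coe_insert, Set.mem_insert_iff] at hx
        rcases hx with rfl | hx
        · exact hjk hj
        · exact hik (hi hx)
    exact key E
  refine ⟨i, ?_⟩
  have hemb : IsClosedEmbedding ((K i).subtype : K i → G) :=
    (hK i).isClosedEmbedding_subtypeVal
  have hcov := fun n => traj_cover φ hE n
  let E₀ : Set (K i) := (K i).subtype ⁻¹' (E : Set G) ∪ {0}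
  have hE₀fin : E₀.Finite := by
    refine Set.Finite.union ?_ (Set.finite_singleton _)
    exact Set.Finite.preimage (hemb.injective.injOn) E.finite_toSet
  have hE₀0 : (0 : K i) ∈ E₀ := Or.inr rfl
  have hEE₀ : (E : Set G) ⊆ (K i).subtype '' E₀ := by
    intro x hx
    exact ⟨⟨x, hi hx⟩, Or.inl hx, rfl⟩
  let U : Set (K i) := (K i).subtype ⁻¹' C
  have hUc : IsCompact U := hemb.isCompact_preimage hC
  have hU0 : U ∈ 𝓝 (0 : K i) := by
    apply hemb.continuous.continuousAt
    rw [map_zero]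
    exact hC0
  have hUz : (0 : K i) ∈ U := mem_of_mem_nhds hU0
  let C' : Set (K i) := E₀ + U
  have hC'c : IsCompact C' := (hE₀fin.isCompact).add hUc
  have hC'0 : C' ∈ 𝓝 (0 : K i) := by
    refine mem_of_superset hU0 ?_
    intro u hu
    exact ⟨0, hE₀0, u, hu, by simp⟩
  refine le_trans ?_ (le_iSup₂ (f := fun (C : Set (K i)) (_ : IsCompact C ∧ C ∈ 𝓝 (0 : K i)) =>
    HA (ν i) (restr φ (K i) (h i)) C) C' ⟨hC'c, hC'0⟩)
  unfold HA
  have hUpos : ν i U ≠ 0 := (Measure.measure_pos_of_mem_nhds (ν i) hU0).ne'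
  have hUfin : ν i U ≠ ⊤ := hUc.measure_lt_top.ne
  let D : Set G := (C - C) + C
  have hDc : IsCompact D := by
    have : IsCompact (C - C) := by rw [sub_eq_add_neg]; exact hC.add hC.neg
    exact this.add hC
  have hDfin : μ D ≠ ⊤ := hDc.measure_lt_top.ne
  refine limsup_log_le (c := μ D / ν i U) (ENNReal.div_ne_top hDfin hUpos) ?_
  intro n hn
  obtain ⟨m, rfl⟩ : ∃ m, n = m + 1 := ⟨n - 1, by omega⟩
  have hTfin : (traj (restr φ (K i) (h i)) E₀ (m + 1)).Finite := by
    rw [← coe_restrHom]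
    exact finite_traj (restrHom φ (K i) (h i)) hE₀fin _
  obtain ⟨S, hSE, hES, hcard⟩ := packing (ν i) hTfin.isCompact hUc hU0
  have hsub : traj (restr φ (K i) (h i)) E₀ (m + 1) + U ⊆
      traj (restr φ (K i) (h i)) C' (m + 1) := by
    rw [← coe_restrHom]
    exact traj_add_subset (restrHom φ (K i) (h i)) hUz m
  have h1 : traj φ C (m + 1) ⊆ ⋃ s ∈ S, ((K i).subtype s +ᵥ D) := by
    intro x hx
    have hx1 := hcov (m + 1) (traj_subset_succ φ h0C (m + 1) hx)
    obtain ⟨y, hy, c, hc, rfl⟩ := hx1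
    have hy1 : y ∈ (K i).subtype '' (traj (restr φ (K i) (h i)) E₀ (m + 1)) := by
      rw [image_traj]
      exact traj_mono_set φ hEE₀ _ hy
    obtain ⟨z, hz, rfl⟩ := hy1
    obtain ⟨s, hs, d, ⟨u, hu, v, hv, rfl⟩, rfl⟩ := hES hz
    simp only [Set.mem_iUnion]
    refine ⟨s, hs, ((K i).subtype u - (K i).subtype v) + c,
      ⟨_, ⟨_, hu, _, hv, rfl⟩, c, hc, rfl⟩, ?_⟩
    simp [add_assoc]
  calc μ (traj φ C (m + 1)) ≤ μ (⋃ s ∈ S, ((K i).subtype s +ᵥ D)) := measure_mono h1
    _ ≤ ∑ s ∈ S, μ ((K i).subtype s +ᵥ D) := measure_biUnion_finset_le _ _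
    _ = (S.card : ENNReal) * μ D := by
        rw [Finset.sum_congr rfl (fun s _ => measure_vadd μ ((K i).subtype s) D)]; simp
    _ = (μ D / ν i U) * ((S.card : ENNReal) * ν i U) := by
        rw [ENNReal.div_eq_inv_mul, mul_comm (S.card : ENNReal) (ν i U), ← mul_assoc,
          mul_assoc _ (μ D), mul_comm (μ D), ← mul_assoc, ENNReal.inv_mul_cancel hUpos hUfin,
          one_mul, mul_comm]
    _ ≤ (μ D / ν i U) * ν i (traj (restr φ (K i) (h i)) E₀ (m + 1) + U) :=
        mul_le_mul_right hcard _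
    _ ≤ (μ D / ν i U) * ν i (traj (restr φ (K i) (h i)) C' (m + 1)) :=
        mul_le_mul_right (measure_mono hsub) _

end main

/-- **Upper continuity of the algebraic entropy on all LCA groups.**
`G` is any locally compact Hausdorff abelian group, `φ` any continuous endomorphism, and
`(K i)` any directed family of closed `φ`-invariant subgroups with union `G`.  Then
`h_A(φ) = sup_i h_A(φ|_{K i})`, whatever Haar measures are used on `G` and on the `K i`. -/
theorem result {G : Type*} [AddCommGroup G] [TopologicalSpace G] [IsTopologicalAddGroup G]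
    [LocallyCompactSpace G] [T2Space G] [MeasurableSpace G] [BorelSpace G]
    (μ : Measure G) [μ.IsAddHaarMeasure]
    (φ : G →+ G) (hφ : Continuous φ)
    {I : Type*} (K : I → AddSubgroup G)
    (hclosed : ∀ i, IsClosed (K i : Set G))
    (hinv : ∀ i, ∀ x ∈ K i, φ x ∈ K i)
    (hdir : Directed (· ≤ ·) K)
    (hunion : (⋃ i, (K i : Set G)) = Set.univ)
    (ν : ∀ i, Measure (K i)) [∀ i, (ν i).IsAddHaarMeasure] :
    hA μ φ = ⨆ i, hA (ν i) (restr φ (K i) (hinv i)) := by
  apply le_antisymm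
  · unfold hA
    refine iSup₂_le ?_
    rintro C ⟨hC, hC0⟩
    obtain ⟨i, hi⟩ := HA_le_of_directed μ φ hφ K hclosed hinv hdir hunion ν C hC hC0
    exact hi.trans (le_iSup (fun i => hA (ν i) (restr φ (K i) (hinv i))) i)
  · exact iSup_le fun i => hA_closed_subgroup_le μ φ hφ (K i) (hclosed i) (hinv i) (ν i)

end Pool.Agent.Results.MP_827700_an.UpperContinuity
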